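import Mathlib
import Pool.Agent.P8H67.TD.Stm

/-!
Package FLAT of project TD (helper5): from integral to real coefficients.
-/

set_option autoImplicit false

namespace Pool.Agent.P8H5.TD

open Pool.Agent.N520.SV (Sx Chain face bdry)
open Pool.Agent.H904R2 (RAcyc Ch IsCyc IsBdy)
open Pool.Agent.Helper922.HB.Sc (Sing sface bd sbd)
open Pool.Agent.P8H67.TD

/-- the boundary with coefficients in an abelian group -/
noncomputable def dA (A : Type) [AddCommGroup A] (X : Type) [TopologicalSpace X] (n : ℕ) :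
    (Sing X (n + 1) →₀ A) →+ (Sing X n →₀ A) :=
  ∑ i : Fin (n + 2), ((-1 : ℤ) ^ (i : ℕ)) • Finsupp.mapDomain.addMonoidHom (sface n i)

theorem dA_apply {A : Type} [AddCommGroup A] {X : Type} [TopologicalSpace X] (n : ℕ)
    (c : Sing X (n + 1) →₀ A) :
    dA A X n c = ∑ i : Fin (n + 2), ((-1 : ℤ) ^ (i : ℕ)) • Finsupp.mapDomain (sface n i) c := by
  unfold dA
  rw [AddMonoidHom.finsetSum_apply]
  rfl

theorem dA_mapRange {A B : Type} [AddCommGroup A] [AddCommGroup B] {X : Type}
    [TopologicalSpace X] (n : ℕ) (f : A →+ B) (c : Sing X (n + 1) →₀ A) :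
    dA B X n (Finsupp.mapRange.addMonoidHom f c) = Finsupp.mapRange.addMonoidHom f (dA A X n c) := by
  rw [dA_apply, dA_apply, map_sum]
  refine Finset.sum_congr rfl fun i _ => ?_
  rw [map_zsmul]
  congr 1
  exact Finsupp.mapDomain_mapRange (sface n i) c f (map_zero f) (map_add f)

theorem sbd_eq {X : Type} [TopologicalSpace X] (n : ℕ) (z : Sing X (n + 1) →₀ ℤ) :
    sbd X n z = dA ℤ X n z := by
  rw [dA_apply]
  show bd (sface (X := X)) n z = _
  unfold bd
  rw [LinearMap.sum_apply]
  rfl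

theorem bdry_eq {X : Type} [TopologicalSpace X] (n : ℕ) (z : Chain (n + 1) X) :
    bdry n z = dA ℝ X n z := by
  induction z using Finsupp.induction_linear with
  | zero => rw [map_zero, map_zero]
  | add f g hf hg => rw [map_add, map_add, hf, hg]
  | single σ r =>
    rw [dA_apply]
    unfold bdry
    rw [Finsupp.linearCombination_single, Finset.smul_sum]
    refine Finset.sum_congr rfl fun i _ => ?_
    rw [Finsupp.mapDomain_single]
    show r • ((-1 : ℝ) ^ (i : ℕ)) • Finsupp.single (sface n i σ) (1 : ℝ) =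
      ((-1 : ℤ) ^ (i : ℕ)) • Finsupp.single (sface n i σ) r
    rw [smul_smul, Finsupp.smul_single, Finsupp.smul_single]
    congr 1
    simp [mul_comm]

theorem flat : S_FLAT := by
  intro Z _ j hZ c hc
  rw [bdry_eq] at hc
  set A : Submodule ℤ ℝ := Submodule.span ℤ ((c.support.image c : Finset ℝ) : Set ℝ) with hA
  have hmem : ∀ σ, c σ ∈ A := by
    intro σ
    by_cases h : c σ = 0
    · rw [h]; exact zero_mem _
    · refine Submodule.subset_span ?_
      rw [Finset.mem_coe, Finset.mem_image]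
      exact ⟨σ, Finsupp.mem_support_iff.2 h, rfl⟩
  have : Module.Finite ℤ A := Module.Finite.span_finset ℤ _
  have : Module.Free ℤ A := inferInstance
  set b := Module.finBasis ℤ A with hb
  set c' : C(Sx (j + 1), Z) →₀ A := Finsupp.onFinset c.support (fun σ => ⟨c σ, hmem σ⟩) (by
    intro σ h
    rw [Finsupp.mem_support_iff]
    intro h0
    exact h (Subtype.ext h0)) with hc'
  have hcc : Finsupp.mapRange.addMonoidHom (A.subtype.toAddMonoidHom) c' = c := by
    ext σ
    rfl
  have h1 : dA A Z j c' = 0 := by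
    have h2 : Finsupp.mapRange.addMonoidHom (A.subtype.toAddMonoidHom) (dA A Z j c') = 0 := by
      rw [← dA_mapRange, hcc, hc]
    ext σ
    have h3 := DFunLike.congr_fun h2 σ
    simpa using h3
  have h2 : ∀ i, ∃ y : Ch Z (j + 2), dA ℤ Z (j + 1) y =
      Finsupp.mapRange.addMonoidHom (b.coord i).toAddMonoidHom c' := by
    intro i
    have h3 : IsCyc (j + 1) (Finsupp.mapRange.addMonoidHom (b.coord i).toAddMonoidHom c') := by
      show sbd Z j _ = 0
      rw [sbd_eq, dA_mapRange, h1, map_zero]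
    obtain ⟨y, hy⟩ := hZ _ h3
    exact ⟨y, by rw [← sbd_eq]; exact hy⟩
  choose y hy using h2
  refine ⟨∑ i, Finsupp.mapRange.addMonoidHom
    ((AddMonoidHom.mulRight ((b i : A) : ℝ)).comp (Int.castAddHom ℝ)) (y i), ?_⟩
  rw [bdry_eq, map_sum]
  conv_rhs => rw [← hcc]
  have h4 : ∀ i, dA ℝ Z (j + 1) (Finsupp.mapRange.addMonoidHom
      ((AddMonoidHom.mulRight ((b i : A) : ℝ)).comp (Int.castAddHom ℝ)) (y i)) =
      Finsupp.mapRange.addMonoidHom
      ((AddMonoidHom.mulRight ((b i : A) : ℝ)).comp (Int.castAddHom ℝ))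
        (Finsupp.mapRange.addMonoidHom (b.coord i).toAddMonoidHom c') := by
    intro i
    rw [dA_mapRange, hy]
  simp only [h4]
  ext σ
  rw [Finsupp.finsetSum_apply]
  have h5 := b.sum_repr (c' σ)
  have h6 : ((c' σ : A) : ℝ) = ∑ i, ((b.repr (c' σ) i : ℤ) : ℝ) * ((b i : A) : ℝ) := by
    have h7 := congrArg A.subtype h5
    rw [map_sum] at h7
    refine h7.symm.trans (Finset.sum_congr rfl fun i _ => ?_)
    rw [map_zsmul, zsmul_eq_mul]
    rfl
  show _ = ((c' σ : A) : ℝ)
  rw [h6]
  rfl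

end Pool.Agent.P8H5.TD
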